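import Pool.Agent.H82.PS.Tot
import Pool.Agent.H82.PS.Five

/-!
# MP_2a11a1_nt: counterexamples to the PSW conjecture with a large prime power divisor, or with few prime factors

A counterexample to Q1 is a composite Selfridge number. For every `ε > 0` there is `C` such that
* at most `C x^ε (x/y + √x)` counterexamples up to `x` are divisible by a prime power larger than `y`;
* at most `C x^(1 - 1/k + ε)` counterexamples up to `x` have at most `k` distinct prime factors, for every `k ≥ 2` (`C` does not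
  depend on `k`).
Every counterexample has a prime factor congruent to `2` or `3` modulo `5`, and at most `2 (x/y) (1 + log (x + 1))` counterexamples
up to `x` have such a prime factor larger than `y`.
-/

namespace Pool.Agent.Results.MP_2a11a1_nt.FewPrimeFactors

/-- the counterexamples to Q1: the composite Selfridge numbers -/
def Counterexample (n : ℕ) : Prop :=
  Odd n ∧ (n % 5 = 2 ∨ n % 5 = 3) ∧ 2 ^ (n - 1) ≡ 1 [MOD n] ∧ n ∣ Nat.fib (n + 1) ∧ ¬ n.Prime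

theorem result :
    (∀ ε : ℝ, 0 < ε → ∃ C : ℝ,
      (∀ x y : ℝ, 1 ≤ x → 1 ≤ y →
        ({n : ℕ | (n : ℝ) ≤ x ∧ Counterexample n ∧
          ∃ p e : ℕ, p.Prime ∧ y < (p : ℝ) ^ e ∧ p ^ e ∣ n}.ncard : ℝ) ≤
          C * x ^ ε * (x / y + Real.sqrt x)) ∧
      ∀ k : ℕ, 2 ≤ k → ∀ x : ℝ, 1 ≤ x →
        ({n : ℕ | (n : ℝ) ≤ x ∧ Counterexample n ∧ n.primeFactors.card ≤ k}.ncard : ℝ) ≤
          C * x ^ (1 - 1 / (k : ℝ) + ε)) ∧
    (∀ n : ℕ, Counterexample n → ∃ p : ℕ, p.Prime ∧ (p % 5 = 2 ∨ p % 5 = 3) ∧ p ∣ n) ∧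
    ∀ x y : ℝ, 1 ≤ x → 0 < y →
      ({n : ℕ | (n : ℝ) ≤ x ∧ Counterexample n ∧
        ∃ p : ℕ, p.Prime ∧ (p % 5 = 2 ∨ p % 5 = 3) ∧ y < p ∧ p ∣ n}.ncard : ℝ) ≤
        2 * (x / y) * (1 + Real.log (x + 1)) := by
  classical
  have key : ∀ (x : ℝ) (Q : ℕ → Prop), 1 ≤ x → {n : ℕ | (n : ℝ) ≤ x ∧ Counterexample n ∧ Q n} =
      ((Finset.range (⌊x⌋₊ + 1)).filter (fun n => Pool.Agent.H99.PC.Sel n ∧ Q n) : Finset ℕ) := by
    intro x Q hx
    ext n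
    rw [Finset.mem_coe, Finset.mem_filter, Finset.mem_range, Nat.lt_succ_iff, Nat.le_floor_iff (by linarith)]
    rfl
  have hfl : ∀ x : ℝ, 1 ≤ x → 1 ≤ ⌊x⌋₊ ∧ ((⌊x⌋₊ : ℕ) : ℝ) ≤ x := fun x hx =>
    ⟨Nat.le_floor (by exact_mod_cast hx), Nat.floor_le (by linarith)⟩
  refine ⟨?_, ?_, ?_⟩
  · intro ε hε
    obtain ⟨C1, hC1, h1⟩ := Pool.Agent.H82.PS.tot ε hε
    obtain ⟨C2, hC2, h2⟩ := Pool.Agent.H82.PS.few ε hε
    refine ⟨max C1 C2, ?_, ?_⟩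
    · intro x y hx hy
      obtain ⟨hX1, hXx⟩ := hfl x hx
      rw [key x (fun n => ∃ p e : ℕ, p.Prime ∧ y < (p : ℝ) ^ e ∧ p ^ e ∣ n) hx, Set.ncard_coe_finset]
      have h3 := h1 ⌊x⌋₊ y hX1 hy
      have hy0 : 0 < y := by linarith
      have h4 : ((⌊x⌋₊ : ℕ) : ℝ) ^ ε ≤ x ^ ε := Real.rpow_le_rpow (Nat.cast_nonneg _) hXx hε.le
      have h5 : Real.sqrt ((⌊x⌋₊ : ℕ) : ℝ) ≤ Real.sqrt x := Real.sqrt_le_sqrt hXx
      have h6 : (0 : ℝ) ≤ C1 := by linarith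
      refine h3.trans ?_
      have h7 : C1 ≤ max C1 C2 := le_max_left _ _
      have h8 : 0 ≤ x ^ ε := Real.rpow_nonneg (by linarith) _
      gcongr
    · intro k hk x hx
      obtain ⟨hX1, hXx⟩ := hfl x hx
      have hset : {n : ℕ | (n : ℝ) ≤ x ∧ Counterexample n ∧ n.primeFactors.card ≤ k} =
          ((Pool.Agent.H82.PS.Fw k ⌊x⌋₊ : Finset ℕ) : Set ℕ) := by
        ext n
        rw [Finset.mem_coe, Pool.Agent.H82.PS.Fw, Finset.mem_filter, Finset.mem_range, Nat.lt_succ_iff,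
          Nat.le_floor_iff (by linarith)]
        rfl
      rw [hset, Set.ncard_coe_finset]
      have h3 := h2 k hk ⌊x⌋₊ hX1
      have hkr : (2 : ℝ) ≤ k := by exact_mod_cast hk
      have h1k : 1 / (k : ℝ) ≤ 1 / 2 := one_div_le_one_div_of_le (by norm_num) hkr
      have h4 : ((⌊x⌋₊ : ℕ) : ℝ) ^ (1 - 1 / (k : ℝ) + ε) ≤ x ^ (1 - 1 / (k : ℝ) + ε) :=
        Real.rpow_le_rpow (Nat.cast_nonneg _) hXx (by linarith)
      have h5 : 0 ≤ x ^ (1 - 1 / (k : ℝ) + ε) := Real.rpow_nonneg (by linarith) _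
      refine h3.trans ?_
      calc C2 * ((⌊x⌋₊ : ℕ) : ℝ) ^ (1 - 1 / (k : ℝ) + ε) ≤ C2 * x ^ (1 - 1 / (k : ℝ) + ε) := mul_le_mul_of_nonneg_left h4 (by linarith)
        _ ≤ max C1 C2 * x ^ (1 - 1 / (k : ℝ) + ε) := mul_le_mul_of_nonneg_right (le_max_right _ _) h5
  · intro n hn
    exact Pool.Agent.H82.PS.ex_five n hn.2.1
  · intro x y hx hy
    obtain ⟨hX1, hXx⟩ := hfl x hx
    rw [key x (fun n => ∃ p : ℕ, p.Prime ∧ (p % 5 = 2 ∨ p % 5 = 3) ∧ y < p ∧ p ∣ n) hx, Set.ncard_coe_finset]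
    have h3 := Pool.Agent.H82.PS.five ⌊x⌋₊ y hy
    have hX0 : (0 : ℝ) ≤ ((⌊x⌋₊ : ℕ) : ℝ) := Nat.cast_nonneg _
    have h4 : Real.log (((⌊x⌋₊ + 1 : ℕ)) : ℝ) ≤ Real.log (x + 1) := by
      refine Real.log_le_log (by push_cast; linarith) ?_
      push_cast
      linarith
    have h5 : 0 ≤ Real.log (((⌊x⌋₊ + 1 : ℕ)) : ℝ) := Real.log_nonneg (by push_cast; linarith)
    refine h3.trans ?_
    calc 2 * ((⌊x⌋₊ : ℕ) : ℝ) / y * (1 + Real.log (((⌊x⌋₊ + 1 : ℕ)) : ℝ)) ≤ 2 * x / y * (1 + Real.log (x + 1)) := by gcongr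
      _ = _ := by ring

end Pool.Agent.Results.MP_2a11a1_nt.FewPrimeFactors
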