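import Pool.Agent.H49.PSW.Lin

/-!
No linear family of primes gives infinitely many counterexamples to Q1.
-/

namespace Pool.Agent.Results.MP_2a11a1_nt.LinearFamilies

/-- Let `1 ≤ c` and let `a i t + b i` (`i < k`) be linear forms with integer coefficients,
`1 ≤ a i ≤ M`, `|b i| ≤ M`, such that `2 ≤ c` and `1 ≤ k`, or two of the forms are different.  If for
an integer `t` all the values `p i = a i t + b i` are primes and `n = c ∏ p i` is a Selfridge number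
(odd, congruent to `2` or `3` modulo `5`, `2 ^ (n - 1) ≡ 1` modulo `n`, and `n` divides the Fibonacci
number of index `n + 1`), then `|t| ≤ 2 ^ (2 c (3 M ^ 2) ^ k) + M`. -/
theorem result : ∀ (k c M : ℕ) (a b : Fin k → ℤ), 1 ≤ c →
    (∀ i, 1 ≤ a i ∧ a i ≤ M ∧ |b i| ≤ M) →
    (2 ≤ c ∧ 1 ≤ k ∨ ∃ i j, a i ≠ a j ∨ b i ≠ b j) →
    ∀ (t : ℤ) (p : Fin k → ℕ) (n : ℕ), (∀ i, (p i).Prime ∧ (p i : ℤ) = a i * t + b i) →
      n = c * ∏ i, p i →
      Odd n → (n % 5 = 2 ∨ n % 5 = 3) → 2 ^ (n - 1) ≡ 1 [MOD n] → n ∣ Nat.fib (n + 1) →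
      |t| ≤ 2 ^ (2 * c * (3 * M ^ 2) ^ k) + M :=
  fun k c M a b hc ha hne t p n hp hn hodd h5 hpow hfib =>
    Pool.Agent.H49.PSW.main k c M a b hc ha hne t p n hp hn hodd h5 hpow hfib

end Pool.Agent.Results.MP_2a11a1_nt.LinearFamilies
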