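import Pool.Agent.H99.PC.Fin

/-!
An upper bound for the number of composite Selfridge numbers (the counterexamples to Q1).
-/

namespace Pool.Agent.Results.MP_2a11a1_nt.SparseCounterexamples

open Finset Classical in
/-- For every `ε > 0` and all large real `x`, the number of `n ≤ x` which are not prime, odd,
congruent to `2` or `3` modulo `5`, with `2 ^ (n - 1) ≡ 1` modulo `n` and with `n` dividing the
Fibonacci number of index `n + 1`, is at most
`x * exp (-(1 - ε) * log x * log log log x / log log x)`. -/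
theorem result : ∀ ε : ℝ, 0 < ε → ∃ x₀ : ℝ, ∀ x : ℝ, x₀ ≤ x →
    ({n : ℕ | (n : ℝ) ≤ x ∧ Odd n ∧ (n % 5 = 2 ∨ n % 5 = 3) ∧ 2 ^ (n - 1) ≡ 1 [MOD n] ∧
      n ∣ Nat.fib (n + 1) ∧ ¬ n.Prime}.ncard : ℝ) ≤
      x * Real.exp (-(1 - ε) *
        (Real.log x * Real.log (Real.log (Real.log x)) / Real.log (Real.log x))) := by
  intro ε hε
  obtain ⟨x₀, h⟩ := Pool.Agent.H99.PC.count_sel ε hε
  refine ⟨max x₀ 0, fun x hx => ?_⟩
  have h1 := h x (le_of_max_le_left hx)
  have hx0 : 0 ≤ x := le_of_max_le_right hx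
  have h2 : {n : ℕ | (n : ℝ) ≤ x ∧ Odd n ∧ (n % 5 = 2 ∨ n % 5 = 3) ∧
      2 ^ (n - 1) ≡ 1 [MOD n] ∧ n ∣ Nat.fib (n + 1) ∧ ¬ n.Prime} =
      ((range (⌊x⌋₊ + 1)).filter (fun n => Pool.Agent.H99.PC.Sel n) : Finset ℕ) := by
    ext n
    rw [Finset.mem_coe, Finset.mem_filter, Finset.mem_range, Nat.lt_succ_iff, Nat.le_floor_iff hx0]
    rfl
  rw [h2, Set.ncard_coe_finset]
  have h3 : Real.log x * Real.log (Real.log (Real.log x)) / Real.log (Real.log x) =
      Real.log x * Pool.Agent.H99.PC.lam x := by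
    rw [Pool.Agent.H99.PC.lam, mul_div_assoc]
  rw [h3]
  exact h1

end Pool.Agent.Results.MP_2a11a1_nt.SparseCounterexamples
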