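import Pool.Agent.H79.SP.All

/-!
Few primes `p ≡ ±1` modulo `5` divide a Selfridge number.
-/

namespace Pool.Agent.Results.MP_2a11a1_nt.SplitPrimes

/-- There is a constant `C` such that for every integer `N ≥ 3` at most
`C N (log log N) ^ 5 / (log N) ^ (1 + δ)` primes `p ≤ N` with `p ≡ 1` or `4` modulo `5` divide an
odd number `n` with `2 ^ (n - 1) ≡ 1` modulo `n` and with `n` dividing the Fibonacci number of index
`n + 1`, where `δ = 1 - (1 + log log 2) / log 2 = 0.086...`. -/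
theorem result : ∃ C : ℝ, 0 < C ∧ ∀ N : ℕ, 3 ≤ N →
    ({p : ℕ | p ≤ N ∧ p.Prime ∧ (p % 5 = 1 ∨ p % 5 = 4) ∧
      ∃ n : ℕ, Odd n ∧ 2 ^ (n - 1) ≡ 1 [MOD n] ∧ n ∣ Nat.fib (n + 1) ∧ p ∣ n}.ncard : ℝ) ≤
      C * N * (Real.log (Real.log N)) ^ 5 /
        (Real.log N) ^ (2 - (1 + Real.log (Real.log 2)) / Real.log 2) :=
  Pool.Agent.H79.SP.all

end Pool.Agent.Results.MP_2a11a1_nt.SplitPrimes
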